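import Pool.Agent.L7h80.RC.Main
import Pool.Agent.L7h45.RC.De
import Pool.Agent.L7h45.RC.Eu
import Pool.Agent.L7h24.RC.To
import Pool.Agent.L7h61.RC.Pr

/-!
# MP_90188c_ag: quasi-homogeneous reduced curve singularities are not rigid

The reduced curve singularities with a `ℂ^*`-action with positive weights are the unions of finitely
many branches `t ↦ (c_1 t ^ w_1, ..., c_n t ^ w_n)`. None of them, if not smooth, is rigid.

Idea of the proof. Let `R` be the local ring and `m` its maximal ideal. The Euler field identifies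
the module of differentials modulo torsion with `m`. If `T¹ = 0` then `Ext¹ (m, R) = 0`, and this
makes `R / a` self-injective for every parameter `a` (`R` is Gorenstein); then the module of
differentials has no torsion, so it is isomorphic to `m`, and the Hessians at the origin of the
equations show that `m` is principal.
-/

set_option autoImplicit false

namespace Pool.Agent.Results.MP_90188c_ag.QuasiHomogeneousCurves

/-- Let `w_1, ..., w_n` be positive weights and `S` a finite set of nonzero vectors `c`; let `I` be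
the ideal of the power series `f` with `f (c_1 t ^ w_1, ..., c_n t ^ w_n) = 0` for all `c ∈ S`. If
the local ring `ℂ[[x]] / I` of the curve is not a principal ideal ring (the curve is not smooth),
then not every linear map `I → ℂ[[x]] / I` comes from a derivation: `T¹ ≠ 0`. -/
theorem result (n : ℕ) (w : Fin n → ℕ) (hw : ∀ i, 0 < w i) (S : Finset (Fin n → ℂ))
    (h0 : ∀ c ∈ S, c ≠ 0) (I : Ideal (MvPowerSeries (Fin n) ℂ))
    (hI : ∀ f, f ∈ I ↔ ∀ c ∈ S,
      MvPowerSeries.subst (fun i => (PowerSeries.C (c i) * PowerSeries.X ^ w i : PowerSeries ℂ)) f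
        = 0)
    (hsing : ¬ IsPrincipalIdealRing (MvPowerSeries (Fin n) ℂ ⧸ I)) :
    ¬ ∀ φ : (↥I) →ₗ[MvPowerSeries (Fin n) ℂ] (MvPowerSeries (Fin n) ℂ ⧸ I),
      ∃ D : Derivation ℂ (MvPowerSeries (Fin n) ℂ) (MvPowerSeries (Fin n) ℂ),
        ∀ f : (↥I), φ f = Ideal.Quotient.mk I (D (f : MvPowerSeries (Fin n) ℂ)) :=
  Pool.Agent.L7h80.RC.main Pool.Agent.L7h45.RC.s_BR Pool.Agent.L7h45.RC.s_EU
    Pool.Agent.L7h45.RC.s_SP Pool.Agent.L7h45.RC.s_DE
    (Pool.Agent.L7h61.RC.s_PR Pool.Agent.L7h45.RC.s_BR Pool.Agent.L7h45.RC.s_SP)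
    (Pool.Agent.L7h24.RC.s_TO Pool.Agent.L7h45.RC.s_BR Pool.Agent.L7h45.RC.s_EU)
    n w hw S h0 I hI hsing

end Pool.Agent.Results.MP_90188c_ag.QuasiHomogeneousCurves
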