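import Pool.Agent.L7h80.RC.Wedge
import Pool.Agent.L7h45.RC.De
import Pool.Agent.L7h46.RC.Sub
import Pool.Agent.L7h80.RC.Fin
import Pool.Agent.L7h15.RC.Wpr

/-!
# MP_90188c_ag: transversal unions of curve singularities are not rigid

Let the reduced curve singularity `C` in `(ℂ^n, 0)`, `n ≥ 3` its embedding dimension, be a union
`C = C₁ ∪ C₂` with `C₁` in the space of the first group of coordinates and `C₂` in the space of the
others (the tangent spaces of `C₁` and `C₂` have intersection zero). Then `C` is not rigid.

Idea of the proof. Let `u` and `v` be parameters of `C₁` and `C₂` (zero on the other part). Then `u` is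
in the socle of `R / (u + v)`, so if `T¹ = 0` the derivation `u ∂_i` to `R / (u + v)` lifts to `R`. The
lift induces `u` times a derivation `δ` of the local ring of `C₁` with `δ x_i` a unit. But `δ` preserves
the ideal generated by the first partial derivatives of the equations, which is primary to the
maximal ideal and proper if `C₁` has embedding dimension at least two: a contradiction.
-/

set_option autoImplicit false

namespace Pool.Agent.Results.MP_90188c_ag.TransversalUnions

/-- Let `I` be a radical ideal of the ring `P` of formal power series in `n ≥ 3` variables with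
`dim P / I = 1`, without elements with a linear term. Suppose that the set of the variables is the
union of two disjoint nonempty sets such that the product of a variable of the first set and one of
the second set is always in `I`. Then not every linear map `I → P / I` comes from a derivation. -/
theorem result (n : ℕ) (hn : 3 ≤ n) (I : Ideal (MvPowerSeries (Fin n) ℂ)) (hrad : I.IsRadical)
    (hdim : ringKrullDim (MvPowerSeries (Fin n) ℂ ⧸ I) = 1)
    (hlin : ∀ f ∈ I, ∀ i, MvPowerSeries.coeff (Finsupp.single i 1) f = 0)
    (T : Finset (Fin n)) (hT : T.Nonempty) (hT' : Tᶜ.Nonempty)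
    (hxy : ∀ i ∈ T, ∀ j ∈ Tᶜ, (MvPowerSeries.X i * MvPowerSeries.X j : MvPowerSeries (Fin n) ℂ) ∈ I) :
    ¬ ∀ φ : (↥I) →ₗ[MvPowerSeries (Fin n) ℂ] (MvPowerSeries (Fin n) ℂ ⧸ I),
      ∃ D : Derivation ℂ (MvPowerSeries (Fin n) ℂ) (MvPowerSeries (Fin n) ℂ),
        ∀ f : (↥I), φ f = Ideal.Quotient.mk I (D (f : MvPowerSeries (Fin n) ℂ)) :=
  Pool.Agent.L7h80.RC.wedge Pool.Agent.L7h45.RC.s_SP Pool.Agent.L7h45.RC.s_DE
    (Pool.Agent.L7h15.RC.s_WPR (Pool.Agent.L7h80.RC.s_FIN Pool.Agent.L7h45.RC.s_SP) Pool.Agent.L7h46.RC.s_SUB)
    (Pool.Agent.L7h56.RC.s_PRI Pool.Agent.L7h45.RC.s_SP) n hn I hrad hdim hlin T hT hT' hxy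

end Pool.Agent.Results.MP_90188c_ag.TransversalUnions
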