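import Pool.Agent.L7h80.RC.DefB
import Pool.Agent.L7h45.RC.De
import Pool.Agent.L7h44.RC.Len
import Pool.Agent.L7h46.RC.Sub
import Pool.Agent.L7h80.RC.Fin
import Pool.Agent.L7h15.RC.Wpr
import Pool.Agent.L7h73.RC.Rnk
import Pool.Agent.L7h56.RC.Pri

/-!
# MP_90188c_ag: rigid curve singularities have small type

If a reduced curve singularity `R = ℂ[[x_1, ..., x_n]] / I` is rigid (`T¹ = 0`), then
`dim R / x ≥ n * dim soc (R / x)` for every parameter `x`, where `n` is the embedding dimension. So
the multiplicity is at least the embedding dimension times the type.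

Idea of the proof. If `T¹ = 0` every derivation `R → R / x` lifts to a derivation of `R`. If `s` is in
the socle of `R / x`, all `s ∂_i` are such derivations. So the module `Δ` of the derivations of `R`
has at least `n * dim soc (R / x)` elements which are linearly independent modulo `x Δ`. But `Δ` is
isomorphic to an ideal of `R`, so there are at most `dim R / x`.
-/

set_option autoImplicit false

namespace Pool.Agent.Results.MP_90188c_ag.TypeInequality

open Pool.Agent.L7h80.RC in
/-- Let `I` be a radical ideal of the ring `P` of formal power series in `n` variables with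
`dim P / I = 1`, such that every `P`-linear map `I → P / I` comes from a derivation (`T¹ = 0`).
Then for every `x` such that `A = P / (I, x)` has finite dimension over `ℂ`:
(1) `n` times the dimension of the annihilator in `A` of all partial derivatives of elements of `I`
is at most `dim A`;
(2) if no element of `I` has a linear term, `n * dim soc A ≤ dim A`. -/
theorem result (n : ℕ) (I : Ideal (MvPowerSeries (Fin n) ℂ)) (hrad : I.IsRadical)
    (hdim : ringKrullDim (MvPowerSeries (Fin n) ℂ ⧸ I) = 1) (hrig : Rigid I)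
    (x : MvPowerSeries (Fin n) ℂ)
    (hfin : Module.Finite ℂ (MvPowerSeries (Fin n) ℂ ⧸ (I ⊔ Ideal.span {x}))) :
    n * dimSpan (I ⊔ Ideal.span {x}) (jacSet I (I ⊔ Ideal.span {x})) ≤
      len (I ⊔ Ideal.span {x}) ∧
    ((∀ f ∈ I, ∀ i, MvPowerSeries.coeff (Finsupp.single i 1) f = 0) →
      n * dimSpan (I ⊔ Ideal.span {x}) (socleSet (I ⊔ Ideal.span {x})) ≤
        len (I ⊔ Ideal.span {x})) := by
  rw [dimSpan_jac, dimSpan_socle]
  exact mainB' Pool.Agent.L7h45.RC.s_SP Pool.Agent.L7h45.RC.s_DE Pool.Agent.L7h44.RC.s_LEN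
    (Pool.Agent.L7h73.RC.s_RNK (Pool.Agent.L7h15.RC.s_WPR
      (s_FIN Pool.Agent.L7h45.RC.s_SP) Pool.Agent.L7h46.RC.s_SUB))
    (Pool.Agent.L7h56.RC.s_PRI Pool.Agent.L7h45.RC.s_SP) n I hrad hdim hrig x hfin

end Pool.Agent.Results.MP_90188c_ag.TypeInequality
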